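import Pool.Agent.Helper64.DC.Lower
import Pool.Agent.Helper17.DC.Prescribed

set_option autoImplicit false

/-!
# Disjoint cycles through specified vertices: almost all specified sets

Let `G` be a `(2k + s)`-connected graph with `n ≥ 3k` vertices. For every set `Y` of at most
`(k + s + 2) / 2` vertices, all but a proportion `3k³ / (n + 1 - k)` of the `k`-sets `X` which
contain `Y` have `k` disjoint cycles, each containing exactly one vertex of `X`. Hence the least
connectivity which forces these cycles, in all large graphs, for almost all `k`-sets `X` which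
contain `m` prescribed vertices is exactly `2k` if `m ≤ (k + 2) / 2`, in particular if no vertex is
prescribed, and between `2k` and `k + 2m - 2` if `(k + 2) / 2 ≤ m ≤ k`. Moreover all but
`O(n^((k - 1 - s) / 2))` of the `k`-sets `X` have the cycles.
-/

namespace Pool.Agent.Results.MP_6bc104_co.AlmostAll

open Finset

/-- `G` is `c`-connected: more than `c` vertices, and deleting fewer than `c` vertices leaves a
connected graph. -/
def IsKConnected {V : Type} [Fintype V] (G : SimpleGraph V) (c : ℕ) : Prop :=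
  c < Fintype.card V ∧ ∀ S : Finset V, S.card < c → (G.induce {v | v ∉ S}).Connected

/-- There are `k` pairwise vertex-disjoint cycles, each containing exactly one vertex of `X`. -/
def CyclesThrough {V : Type} (k : ℕ) (G : SimpleGraph V) (X : Finset V) : Prop :=
  ∃ (v : Fin k → V) (C : (i : Fin k) → G.Walk (v i) (v i)),
    (∀ i, (C i).IsCycle) ∧
    (∀ i j, i ≠ j → ∀ w, w ∈ (C i).support → w ∉ (C j).support) ∧
    ∀ i, ∃! x, x ∈ X ∧ x ∈ (C i).support

/-- `c`-connectivity forces, in all sufficiently large graphs, the `k` disjoint cycles for almost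
all `k`-sets `X` which contain `m` prescribed vertices: for every `ε > 0` there is `n₀` such that,
in every `c`-connected graph with at least `n₀` vertices, for every set `Y` of at most `m` vertices,
at most a proportion `ε` of the `k`-sets which contain `Y` do not have the cycles. -/
def ForcesAlmostAll (k m c : ℕ) : Prop :=
  ∀ ε : ℝ, 0 < ε → ∃ n₀ : ℕ, ∀ (V : Type) [Fintype V] (G : SimpleGraph V),
    n₀ ≤ Fintype.card V → IsKConnected G c → ∀ Y : Finset V, Y.card ≤ m →
    ({X : Finset V | X.card = k ∧ Y ⊆ X ∧ ¬ CyclesThrough k G X}.ncard : ℝ) ≤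
      ε * ({X : Finset V | X.card = k ∧ Y ⊆ X}.ncard : ℝ)

theorem cyclesThrough_of {V : Type} (k : ℕ) (G : SimpleGraph V) (X : Finset V) (hX : X.card = k)
    (h : DC.DisjCycles G X) : CyclesThrough k G X := by
  classical
  obtain ⟨C, h1, h2, h3⟩ := h
  let e : Fin k ≃ X := (finCongr hX.symm).trans X.equivFin.symm
  refine ⟨fun i => (e i : V), fun i => C (e i), fun i => h1 _ (e i).2, ?_, ?_⟩
  · intro i j hij w hw
    refine h3 _ (e i).2 _ (e j).2 ?_ w hw
    intro h
    exact hij (e.injective (Subtype.ext h))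
  · intro i
    refine ⟨e i, ⟨(e i).2, SimpleGraph.Walk.start_mem_support _⟩, ?_⟩
    rintro y ⟨hy1, hy2⟩
    exact h2 _ (e i).2 y hy2 hy1

theorem of_cyclesThrough {V : Type} (k : ℕ) (G : SimpleGraph V) (X : Finset V)
    (hX : X.card = k) (h : CyclesThrough k G X) : DC.DisjCycles G X := by
  classical
  obtain ⟨v, C, h1, h2, h3⟩ := h
  choose x hx hxu using h3
  have hinj : Function.Injective x := by
    intro i j hij
    by_contra hne
    exact h2 i j hne (x i) (hx i).2 (hij ▸ (hx j).2)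
  have himg : univ.image x = X := by
    refine eq_of_subset_of_card_le ?_ ?_
    · intro y hy
      obtain ⟨i, -, rfl⟩ := mem_image.mp hy
      exact (hx i).1
    · rw [card_image_of_injective _ hinj, card_univ, Fintype.card_fin, hX]
  have hex : ∀ y : V, ∃ D : G.Walk y y, y ∈ X → D.IsCycle ∧
      ∃ i, x i = y ∧ ∀ w, w ∈ D.support → w ∈ (C i).support := by
    intro y
    by_cases hy : y ∈ X
    · rw [← himg] at hy
      obtain ⟨i, -, rfl⟩ := mem_image.mp hy
      refine ⟨(C i).rotate _ (hx i).2, fun _ => ⟨(h1 i).rotate (hx i).2, i, rfl, ?_⟩⟩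
      intro w hw
      exact (SimpleGraph.Walk.mem_support_rotate_iff _ _ _).mp hw
    · exact ⟨SimpleGraph.Walk.nil, fun h => absurd h hy⟩
  choose D hD using hex
  refine ⟨D, fun y hy => (hD y hy).1, ?_, ?_⟩
  · intro y hy w hw hwX
    obtain ⟨i, rfl, hi⟩ := (hD y hy).2
    exact hxu i w ⟨hwX, hi w hw⟩
  · intro y hy z hz hyz w hw hw'
    obtain ⟨i, rfl, hi⟩ := (hD y hy).2
    obtain ⟨j, rfl, hj⟩ := (hD z hz).2
    exact h2 i j (fun h => hyz (by rw [h])) w (hi w hw) (hj w hw')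

/-- the proportion of the `k`-sets above `Y` without the cycles -/
theorem failing_above (k s : ℕ) (hk : 1 ≤ k) (V : Type) [Fintype V] (G : SimpleGraph V)
    (hV : 3 * k ≤ Fintype.card V) (hG : IsKConnected G (2 * k + s)) (Y : Finset V)
    (hY : 2 * Y.card ≤ k + s + 2) :
    {X : Finset V | X.card = k ∧ Y ⊆ X ∧ ¬ CyclesThrough k G X}.ncard *
      (Fintype.card V + 1 - k) ≤ 3 * k ^ 3 * {X : Finset V | X.card = k ∧ Y ⊆ X}.ncard := by
  classical
  refine (Nat.mul_le_mul_right _ (Set.ncard_le_ncard ?_ (Set.toFinite _))).trans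
    (Pool.Agent.Helper17.DC.few_above G k s hk hV hG Y hY)
  rintro X ⟨hX, hYX, h⟩
  exact ⟨hX, hYX, fun h' => h (cyclesThrough_of k G X hX h')⟩

/-- the number of `k`-sets without the cycles -/
theorem failing (k s : ℕ) (hk : 1 ≤ k) (V : Type) [Fintype V] (G : SimpleGraph V)
    (hV : 3 * k ≤ Fintype.card V) (hG : IsKConnected G (2 * k + s)) :
    {X : Finset V | X.card = k ∧ ¬ CyclesThrough k G X}.ncard ≤
      (3 * k ^ 2) ^ k * Fintype.card V ^ ((k - 1 - s) / 2) := by
  classical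
  refine (Set.ncard_le_ncard ?_ (Set.toFinite _)).trans
    (Pool.Agent.Helper17.DC.few_fail G k s hk hV hG)
  rintro X ⟨hX, h⟩
  exact ⟨hX, fun h' => h (cyclesThrough_of k G X hX h')⟩

theorem forces (k m s : ℕ) (hk : 1 ≤ k) (hm : 2 * m ≤ k + s + 2) :
    ForcesAlmostAll k m (2 * k + s) := by
  intro ε hε
  obtain ⟨N, hN⟩ := exists_nat_ge (((3 * k ^ 3 : ℕ) : ℝ) / ε)
  refine ⟨N + 3 * k, fun V _ G hV hG Y hY => ?_⟩
  have h1 := failing_above k s hk V G (by omega) hG Y (by omega)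
  have h2 : ((3 * k ^ 3 : ℕ) : ℝ) ≤ ε * ((Fintype.card V + 1 - k : ℕ) : ℝ) := by
    have h3 : ((3 * k ^ 3 : ℕ) : ℝ) / ε ≤ ((Fintype.card V + 1 - k : ℕ) : ℝ) :=
      hN.trans (by exact_mod_cast (by omega : N ≤ Fintype.card V + 1 - k))
    rw [div_le_iff₀ hε] at h3
    linarith
  have h4 : (0 : ℝ) < ((Fintype.card V + 1 - k : ℕ) : ℝ) := by
    exact_mod_cast (by omega : 0 < Fintype.card V + 1 - k)
  have h5 : ({X : Finset V | X.card = k ∧ Y ⊆ X ∧ ¬ CyclesThrough k G X}.ncard : ℝ) *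
      ((Fintype.card V + 1 - k : ℕ) : ℝ) ≤
      ((3 * k ^ 3 : ℕ) : ℝ) * ({X : Finset V | X.card = k ∧ Y ⊆ X}.ncard : ℝ) := by
    exact_mod_cast h1
  have h6 := mul_le_mul_of_nonneg_right h2
    (Nat.cast_nonneg ({X : Finset V | X.card = k ∧ Y ⊆ X}.ncard) : (0 : ℝ) ≤ _)
  refine le_of_mul_le_mul_right (h5.trans (h6.trans (le_of_eq ?_))) h4
  ring

theorem not_forces (k m c : ℕ) (hk : 1 ≤ k) (hc : c < 2 * k) : ¬ ForcesAlmostAll k m c := by
  classical
  intro h
  obtain ⟨n₀, h⟩ := h (1 / 2) (by norm_num)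
  obtain ⟨G, hG, -, hX⟩ := DC.lower_bound k (n₀ + k) hk (by omega)
  have hcard : Fintype.card (Fin (2 * k - 1) ⊕ Fin (n₀ + k)) = 2 * k - 1 + (n₀ + k) := by simp
  have h1 := h _ G (by omega) (DC.kconn_anti (by omega) hG) ∅ (by simp)
  have h2 : {X : Finset (Fin (2 * k - 1) ⊕ Fin (n₀ + k)) | X.card = k ∧ ∅ ⊆ X ∧
      ¬ CyclesThrough k G X} =
      ((univ : Finset (Fin (2 * k - 1) ⊕ Fin (n₀ + k))).powersetCard k :
        Set (Finset (Fin (2 * k - 1) ⊕ Fin (n₀ + k)))) := by
    ext X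
    simp only [Set.mem_ofPred_eq, mem_coe, empty_subset,
      mem_powersetCard, subset_univ, true_and]
    exact ⟨fun h => h.1, fun h => ⟨h, fun h' => hX X h (of_cyclesThrough k G X h h')⟩⟩
  have h2' : {X : Finset (Fin (2 * k - 1) ⊕ Fin (n₀ + k)) | X.card = k ∧ ∅ ⊆ X} =
      ((univ : Finset (Fin (2 * k - 1) ⊕ Fin (n₀ + k))).powersetCard k :
        Set (Finset (Fin (2 * k - 1) ⊕ Fin (n₀ + k)))) := by
    ext X
    simp only [Set.mem_ofPred_eq, mem_coe, empty_subset,
      mem_powersetCard, subset_univ, true_and, and_true]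
  rw [h2, h2', Set.ncard_coe_finset, card_powersetCard, card_univ] at h1
  have h3 : (0 : ℝ) < ((Fintype.card (Fin (2 * k - 1) ⊕ Fin (n₀ + k))).choose k : ℝ) := by
    have := Nat.choose_pos (show k ≤ Fintype.card (Fin (2 * k - 1) ⊕ Fin (n₀ + k)) by omega)
    exact_mod_cast this
  linarith

theorem result :
    (∀ k s : ℕ, 1 ≤ k → ∀ (V : Type) [Fintype V] (G : SimpleGraph V),
      3 * k ≤ Fintype.card V → IsKConnected G (2 * k + s) → ∀ Y : Finset V,
      2 * Y.card ≤ k + s + 2 →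
      {X : Finset V | X.card = k ∧ Y ⊆ X ∧ ¬ CyclesThrough k G X}.ncard *
        (Fintype.card V + 1 - k) ≤ 3 * k ^ 3 * {X : Finset V | X.card = k ∧ Y ⊆ X}.ncard) ∧
    (∀ k m : ℕ, 1 ≤ k → 2 * m ≤ k + 2 →
      IsLeast {c : ℕ | 1 ≤ c ∧ ForcesAlmostAll k m c} (2 * k)) ∧
    (∀ k m : ℕ, 1 ≤ k → k + 2 ≤ 2 * m → m ≤ k →
      ∃ c, IsLeast {c : ℕ | 1 ≤ c ∧ ForcesAlmostAll k m c} c ∧ 2 * k ≤ c ∧ c ≤ k + 2 * m - 2) ∧
    ∀ k s : ℕ, 1 ≤ k → ∀ (V : Type) [Fintype V] (G : SimpleGraph V),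
      3 * k ≤ Fintype.card V → IsKConnected G (2 * k + s) →
      {X : Finset V | X.card = k ∧ ¬ CyclesThrough k G X}.ncard ≤
        (3 * k ^ 2) ^ k * Fintype.card V ^ ((k - 1 - s) / 2) := by
  refine ⟨fun k s hk V _ G hV hG Y hY => failing_above k s hk V G hV hG Y hY,
    fun k m hk hm => ⟨⟨by omega, forces k m 0 hk (by omega)⟩, fun c hc => ?_⟩,
    fun k m hk hm hmk => ?_, fun k s hk V _ G hV hG => failing k s hk V G hV hG⟩
  · by_contra hcon
    push Not at hcon
    exact not_forces k m c hk hcon hc.2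
  · have hF : k + 2 * m - 2 ∈ {c : ℕ | 1 ≤ c ∧ ForcesAlmostAll k m c} := by
      have h1 := forces k m (2 * m - k - 2) hk (by omega)
      have h2 : 2 * k + (2 * m - k - 2) = k + 2 * m - 2 := by omega
      rw [h2] at h1
      exact ⟨by omega, h1⟩
    refine ⟨sInf {c : ℕ | 1 ≤ c ∧ ForcesAlmostAll k m c},
      ⟨Nat.sInf_mem ⟨_, hF⟩, fun c hc => Nat.sInf_le hc⟩, ?_, Nat.sInf_le hF⟩
    by_contra hcon
    push Not at hcon
    exact not_forces k m _ hk hcon (Nat.sInf_mem ⟨_, hF⟩).2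

end Pool.Agent.Results.MP_6bc104_co.AlmostAll
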