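import Pool.Agent.Helper17.DC.Few
import Pool.Agent.Helper17.DC.Block
import Pool.Agent.Helper17.DC.Clique
import Pool.Agent.Helper17.DC.Bar
import Pool.Agent.Helper17.DC.Pairs
import Pool.Agent.Helper17.DC.Almost
import Pool.Agent.Helper93.DC.Root2

set_option autoImplicit false

/-!
# Disjoint cycles through specified vertices: classes of graphs, and large minimum degree

Let `G` be `(2k + s)`-connected and `X` a set of `k` vertices. There are `k` disjoint cycles, each
containing exactly one vertex of `X`, if `k ≤ 2 s + 3` and any `2 s + 4 - k` vertices of `X` include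
two with at most `4 s + 3 - k` common neighbours; or if every two adjacent vertices of `X` have at
most `2s + q` common neighbours, where `q ≤ 1`, or `3 (s + q) ≤ k` and either `q (q + 1) ≤ 2 k` or
(`q ≤ 2 s + 1` and `q (q + 1) ≤ 2 k + (s + 1) (s + 2)`); or if `(w - 1) (k - 1) ≤ w s` and every
`w + 1` pairwise adjacent vertices of `X` have at most `(w + 1) s - (w - 1) (k - 1)` common
neighbours; or if any two vertices of `X` have at most `t` common neighbours,
`t (2 k - 1) < (k + s) (k + s - 1)`.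

On the other hand, for all `d` and `n` there is a bipartite `(2k - 1)`-connected graph with at least
`n` vertices and minimum degree at least `d` and a `k`-set `X` in it without the cycles. Hence, even
under any condition on the minimum degree, `2k`-connectivity is exactly what is needed for
triangle-free graphs, for bipartite graphs, for graphs with at most about `√(2k)` triangles on every
edge, and for the graphs of minimum degree at least `3k - 2`.
-/

namespace Pool.Agent.Results.MP_6bc104_co.CliqueFree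

open Finset

/-- `G` is `c`-connected: more than `c` vertices, and deleting fewer than `c` vertices leaves a
connected graph. -/
def IsKConnected {V : Type} [Fintype V] (G : SimpleGraph V) (c : ℕ) : Prop :=
  c < Fintype.card V ∧ ∀ S : Finset V, S.card < c → (G.induce {v | v ∉ S}).Connected

/-- There are `k` pairwise vertex-disjoint cycles, each containing exactly one vertex of `X`. -/
def CyclesThrough {V : Type} (k : ℕ) (G : SimpleGraph V) (X : Finset V) : Prop :=
  ∃ (v : Fin k → V) (C : (i : Fin k) → G.Walk (v i) (v i)),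
    (∀ i, (C i).IsCycle) ∧
    (∀ i j, i ≠ j → ∀ w, w ∈ (C i).support → w ∉ (C j).support) ∧
    ∀ i, ∃! x, x ∈ X ∧ x ∈ (C i).support

/-- Every vertex has at least `d` neighbours. -/
def MinDegree (d : ℕ) (V : Type) (G : SimpleGraph V) : Prop :=
  ∀ v : V, d ≤ {w : V | G.Adj v w}.ncard

/-- `c`-connectivity forces, in all sufficiently large graphs of the class `C` of minimum degree at
least `d`, the `k` disjoint cycles for all `k`-sets `X`. -/
def ForcesIn (k d : ℕ) (C : (V : Type) → SimpleGraph V → Prop) (c : ℕ) : Prop :=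
  ∃ n₀ : ℕ, ∀ (V : Type) [Fintype V] (G : SimpleGraph V), C V G → MinDegree d V G →
    n₀ ≤ Fintype.card V → IsKConnected G c → ∀ X : Finset V, X.card = k → CyclesThrough k G X

/-- All graphs. -/
def AllGraphs (V : Type) (_ : SimpleGraph V) : Prop := True

/-- The graphs every edge of which lies in at most `l` triangles. -/
def EdgeTriangles (l : ℕ) (V : Type) (G : SimpleGraph V) : Prop :=
  ∀ x y, G.Adj x y → {v : V | G.Adj x v ∧ G.Adj y v}.ncard ≤ l

/-- The graphs with no complete subgraph on `r` vertices. -/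
def NoClique (r : ℕ) (V : Type) (G : SimpleGraph V) : Prop := G.CliqueFree r

/-- The bipartite graphs. -/
def Bipartite (V : Type) (G : SimpleGraph V) : Prop := G.Colorable 2

theorem cyclesThrough_of {V : Type} (k : ℕ) (G : SimpleGraph V) (X : Finset V) (hX : X.card = k)
    (h : DC.DisjCycles G X) : CyclesThrough k G X := by
  classical
  obtain ⟨C, h1, h2, h3⟩ := h
  let e : Fin k ≃ X := (finCongr hX.symm).trans X.equivFin.symm
  refine ⟨fun i => (e i : V), fun i => C (e i), fun i => h1 _ (e i).2, ?_, ?_⟩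
  · intro i j hij w hw
    refine h3 _ (e i).2 _ (e j).2 ?_ w hw
    intro h
    exact hij (e.injective (Subtype.ext h))
  · intro i
    refine ⟨e i, ⟨(e i).2, SimpleGraph.Walk.start_mem_support _⟩, ?_⟩
    rintro y ⟨hy1, hy2⟩
    exact h2 _ (e i).2 y hy2 hy1

theorem of_cyclesThrough {V : Type} (k : ℕ) (G : SimpleGraph V) (X : Finset V)
    (hX : X.card = k) (h : CyclesThrough k G X) : DC.DisjCycles G X := by
  classical
  obtain ⟨v, C, h1, h2, h3⟩ := h
  choose x hx hxu using h3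
  have hinj : Function.Injective x := by
    intro i j hij
    by_contra hne
    exact h2 i j hne (x i) (hx i).2 (hij ▸ (hx j).2)
  have himg : univ.image x = X := by
    refine eq_of_subset_of_card_le ?_ ?_
    · intro y hy
      obtain ⟨i, -, rfl⟩ := mem_image.mp hy
      exact (hx i).1
    · rw [card_image_of_injective _ hinj, card_univ, Fintype.card_fin, hX]
  have hex : ∀ y : V, ∃ D : G.Walk y y, y ∈ X → D.IsCycle ∧
      ∃ i, x i = y ∧ ∀ w, w ∈ D.support → w ∈ (C i).support := by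
    intro y
    by_cases hy : y ∈ X
    · rw [← himg] at hy
      obtain ⟨i, -, rfl⟩ := mem_image.mp hy
      refine ⟨(C i).rotate _ (hx i).2, fun _ => ⟨(h1 i).rotate (hx i).2, i, rfl, ?_⟩⟩
      intro w hw
      exact (SimpleGraph.Walk.mem_support_rotate_iff _ _ _).mp hw
    · exact ⟨SimpleGraph.Walk.nil, fun h => absurd h hy⟩
  choose D hD using hex
  refine ⟨D, fun y hy => (hD y hy).1, ?_, ?_⟩
  · intro y hy w hw hwX
    obtain ⟨i, rfl, hi⟩ := (hD y hy).2
    exact hxu i w ⟨hwX, hi w hw⟩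
  · intro y hy z hz hyz w hw hw'
    obtain ⟨i, rfl, hi⟩ := (hD y hy).2
    obtain ⟨j, rfl, hj⟩ := (hD z hz).2
    exact h2 i j (fun h => hyz (by rw [h])) w (hi w hw) (hj w hw')

theorem nb_inter {V : Type} [Fintype V] [DecidableEq V] (G : SimpleGraph V)
    [DecidableRel G.Adj] (x y : V) :
    (Helper17.DC.nb G x ∩ Helper17.DC.nb G y).card = {v : V | G.Adj x v ∧ G.Adj y v}.ncard := by
  rw [← Set.ncard_coe_finset]
  congr 1
  ext v
  simp [Helper17.DC.mem_nb]

/-- adjacent vertices of `X` with few common neighbours -/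
theorem few (k s q : ℕ) (hk : 1 ≤ k)
    (hq : q ≤ 1 ∨ 3 * (s + q) ≤ k ∧
      (q * (q + 1) ≤ 2 * k ∨ q ≤ 2 * s + 1 ∧ q * (q + 1) ≤ 2 * k + (s + 1) * (s + 2)))
    (V : Type) [Fintype V] (G : SimpleGraph V) (hG : IsKConnected G (2 * k + s))
    (X : Finset V) (hX : X.card = k)
    (hcom : ∀ x ∈ X, ∀ y ∈ X, G.Adj x y →
      {v : V | G.Adj x v ∧ G.Adj y v}.ncard ≤ 2 * s + q) : CyclesThrough k G X := by
  classical
  refine cyclesThrough_of k G X hX ?_
  rcases hq with h1 | ⟨h1, h2 | ⟨h2, h3⟩⟩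
  · refine Helper17.DC.few_one G k s hk hG X hX fun x hx y hy hxy => ?_
    rw [nb_inter]
    exact (hcom x hx y hy hxy).trans (by omega)
  · refine Helper17.DC.few_sqrt G k s q hk h1 h2 hG X hX fun x hx y hy hxy => ?_
    rw [nb_inter]
    exact hcom x hx y hy hxy
  · refine Helper17.DC.few_third G k s q hk h1 h2 h3 hG X hX fun x hx y hy hxy => ?_
    rw [nb_inter]
    exact hcom x hx y hy hxy

/-- cliques of `X` with few common neighbours -/
theorem cliques (k s w : ℕ) (hk : 1 ≤ k) (hw : 1 ≤ w) (hws : (w - 1) * (k - 1) ≤ w * s)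
    (V : Type) [Fintype V] (G : SimpleGraph V) (hG : IsKConnected G (2 * k + s))
    (X : Finset V) (hX : X.card = k)
    (hcl : ∀ Q : Finset V, Q ⊆ X → G.IsNClique (w + 1) Q →
      {v : V | ∀ x ∈ Q, G.Adj x v}.ncard + (w - 1) * (k - 1) ≤ (w + 1) * s) :
    CyclesThrough k G X := by
  classical
  refine cyclesThrough_of k G X hX
    (Helper17.DC.clique_main G k s w hk hw hws hG X hX fun Q hQX hQ hQc => ?_)
  have h1 : (univ.filter fun v => ∀ x ∈ Q, G.Adj x v).card =
      {v : V | ∀ x ∈ Q, G.Adj x v}.ncard := by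
    rw [← Set.ncard_coe_finset]
    congr 1
    ext v
    simp
  rw [h1]
  exact hcl Q hQX ⟨fun x hx y hy hxy => hQ x (mem_coe.mp hx) y (mem_coe.mp hy) hxy, hQc⟩

/-- any two vertices of `X` have few common neighbours -/
theorem pairs (k s t : ℕ) (hk : 1 ≤ k) (ht : t * (2 * k - 1) < (k + s) * (k + s - 1))
    (V : Type) [Fintype V] (G : SimpleGraph V) (hG : IsKConnected G (2 * k + s))
    (X : Finset V) (hX : X.card = k)
    (hcom : ∀ x ∈ X, ∀ y ∈ X, x ≠ y → {v : V | G.Adj x v ∧ G.Adj y v}.ncard ≤ t) :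
    CyclesThrough k G X := by
  classical
  refine cyclesThrough_of k G X hX
    (Helper17.DC.few_pairs G k s t hk ht hG X hX fun x hx y hy hxy => ?_)
  rw [nb_inter]
  exact hcom x hx y hy hxy

/-- many vertices of `X` do not all have pairwise many common neighbours -/
theorem window (k s : ℕ) (hk : 1 ≤ k) (hks : k ≤ 2 * s + 3)
    (V : Type) [Fintype V] (G : SimpleGraph V) (hG : IsKConnected G (2 * k + s))
    (X : Finset V) (hX : X.card = k)
    (hcom : ∀ S : Finset V, S ⊆ X → k + S.card = 2 * s + 4 →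
      ∃ x ∈ S, ∃ y ∈ S, x ≠ y ∧ {v : V | G.Adj x v ∧ G.Adj y v}.ncard + k ≤ 4 * s + 3) :
    CyclesThrough k G X := by
  classical
  refine cyclesThrough_of k G X hX
    (Helper17.DC.few_window G k s hk hks hG X hX fun S hS hSc => ?_)
  obtain ⟨x, hx, y, hy, hxy, h⟩ := hcom S hS hSc
  refine ⟨x, hx, y, hy, hxy, ?_⟩
  rw [nb_inter]
  exact h

/-- the lower bound -/
theorem lower (k d n : ℕ) (hk : 1 ≤ k) :
    ∃ (V : Type) (_ : Fintype V) (G : SimpleGraph V) (X : Finset V), n ≤ Fintype.card V ∧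
      G.Colorable 2 ∧ MinDegree d V G ∧ IsKConnected G (2 * k - 1) ∧ X.card = k ∧
      (∀ x ∈ X, ∀ y ∈ X, ¬ G.Adj x y ∧ (x ≠ y → ∀ v, ¬ (G.Adj x v ∧ G.Adj y v))) ∧
      ¬ CyclesThrough k G X := by
  classical
  set L := n + d + 2 * k with hL
  refine ⟨Helper17.DC.BarV k L, inferInstance, Helper17.DC.barG k L, Helper17.DC.barX k L, ?_,
    Helper17.DC.barG_colorable k L, fun v => ?_, Helper17.DC.barG_conn k L hk (by omega), ?_,
    ?_, ?_⟩
  · simp only [Fintype.card_sum, Fintype.card_prod, Fintype.card_fin]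
    have h1 : L * 1 ≤ L * L := Nat.mul_le_mul_left _ (by omega)
    omega
  · exact le_trans (by omega) (Helper17.DC.barG_deg k L (by omega) v ⟨0, by omega⟩)
  · rw [Helper17.DC.barX, card_map, card_univ, Fintype.card_fin]
  · intro x hx y hy
    obtain ⟨a, rfl⟩ := (Helper17.DC.mem_barX k L x).mp hx
    obtain ⟨b, rfl⟩ := (Helper17.DC.mem_barX k L y).mp hy
    refine ⟨fun h => (h : False).elim, ?_⟩
    rintro hxy v ⟨h1, h2⟩
    rcases v with p | q
    · have h3 : a.val = p.2.val := h1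
      have h4 : b.val = p.2.val := h2
      exact hxy (by rw [Fin.ext (h3.trans h4.symm)])
    · exact (h1 : False).elim
  · intro h
    refine Helper17.DC.bar_not_cycles k L hk (of_cyclesThrough k _ _ ?_ h)
    rw [Helper17.DC.barX, card_map, card_univ, Fintype.card_fin]

theorem not_forcesIn (k d c : ℕ) (C : (V : Type) → SimpleGraph V → Prop) (hk : 1 ≤ k)
    (hc : c < 2 * k) (hC : ∀ (V : Type) (G : SimpleGraph V), G.Colorable 2 → C V G) :
    ¬ ForcesIn k d C c := by
  classical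
  rintro ⟨n₀, h⟩
  obtain ⟨V, _, G, X, h1, h2, h3, h4, h5, -, h6⟩ := lower k d n₀ hk
  exact h6 (h V G (hC V G h2) h3 h1
    ⟨by have := h4.1; omega, fun S hS => h4.2 S (by omega)⟩ X h5)

/-- A class containing the bipartite graphs for which `2k + s` is enough. -/
theorem least_of (k d s : ℕ) (C : (V : Type) → SimpleGraph V → Prop) (hk : 1 ≤ k)
    (hC : ∀ (V : Type) (G : SimpleGraph V), G.Colorable 2 → C V G)
    (hF : ForcesIn k d C (2 * k + s)) :
    ∃ c, IsLeast {c : ℕ | 1 ≤ c ∧ ForcesIn k d C c} c ∧ 2 * k ≤ c ∧ c ≤ 2 * k + s := by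
  have hne : {c : ℕ | 1 ≤ c ∧ ForcesIn k d C c}.Nonempty := ⟨2 * k + s, by omega, hF⟩
  refine ⟨sInf {c : ℕ | 1 ≤ c ∧ ForcesIn k d C c},
    ⟨Nat.sInf_mem hne, fun c hc => Nat.sInf_le hc⟩, ?_, Nat.sInf_le ⟨by omega, hF⟩⟩
  by_contra hcon
  push Not at hcon
  exact not_forcesIn k d _ C hk hcon hC (Nat.sInf_mem hne).2

theorem least_of_zero (k d : ℕ) (C : (V : Type) → SimpleGraph V → Prop) (hk : 1 ≤ k)
    (hC : ∀ (V : Type) (G : SimpleGraph V), G.Colorable 2 → C V G)
    (hF : ForcesIn k d C (2 * k)) : IsLeast {c : ℕ | 1 ≤ c ∧ ForcesIn k d C c} (2 * k) := by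
  obtain ⟨c, hc, h1, h2⟩ := least_of k d 0 C hk hC hF
  have h3 : c = 2 * k := by omega
  rwa [h3] at hc

theorem common_of_colorable (V : Type) (G : SimpleGraph V) (h : G.Colorable 2) (x y : V)
    (hxy : G.Adj x y) : {v : V | G.Adj x v ∧ G.Adj y v} = ∅ := by
  obtain ⟨f⟩ := h
  rw [Set.eq_empty_iff_forall_notMem]
  rintro v ⟨h1, h2⟩
  have a1 := f.valid hxy
  have a2 := f.valid h1
  have a3 := f.valid h2
  generalize f x = a at *
  generalize f y = b at *
  generalize f v = c at *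
  omega

theorem edgeTriangles_of_colorable (l : ℕ) (V : Type) (G : SimpleGraph V) (h : G.Colorable 2) :
    EdgeTriangles l V G := by
  intro x y hxy
  rw [common_of_colorable V G h x y hxy, Set.ncard_empty]
  exact Nat.zero_le l

theorem forcesIn_mono (k d c : ℕ) (C D : (V : Type) → SimpleGraph V → Prop)
    (hCD : ∀ (V : Type) (G : SimpleGraph V), C V G → D V G) (h : ForcesIn k d D c) :
    ForcesIn k d C c := by
  obtain ⟨n₀, h⟩ := h
  exact ⟨n₀, fun V _ G hC => h V G (hCD V G hC)⟩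

theorem forcesIn_edge (k d s q : ℕ) (hk : 1 ≤ k)
    (hq : q ≤ 1 ∨ 3 * (s + q) ≤ k ∧
      (q * (q + 1) ≤ 2 * k ∨ q ≤ 2 * s + 1 ∧ q * (q + 1) ≤ 2 * k + (s + 1) * (s + 2)))
    (l : ℕ) (hl : l ≤ 2 * s + q) : ForcesIn k d (EdgeTriangles l) (2 * k + s) :=
  ⟨0, fun V _ G hC _ _ hG X hX => few k s q hk hq V G hG X hX
    fun x _ y _ hxy => (hC x y hxy).trans hl⟩

theorem forcesIn_edge_zero (k l d : ℕ) (hk : 1 ≤ k)
    (hl : l ≤ 1 ∨ 3 * l ≤ k ∧ l * (l + 1) ≤ 2 * k) :
    ForcesIn k d (EdgeTriangles l) (2 * k) := by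
  refine forcesIn_edge k d 0 l hk ?_ l (by omega)
  rcases hl with h | ⟨h1, h2⟩
  · exact Or.inl h
  · exact Or.inr ⟨by omega, Or.inl h2⟩

/-- The least connectivity for at most `l` triangles on every edge. -/
theorem least_edge (k l d : ℕ) (hk : 1 ≤ k) :
    ∃ c, IsLeast {c : ℕ | 1 ≤ c ∧ ForcesIn k d (EdgeTriangles l) c} c ∧
      2 * k ≤ c ∧ c ≤ 2 * k + l / 2 ∧ (2 * l + 5 ≤ k → c ≤ 2 * k + (l + 1) / 3) := by
  obtain ⟨c, hc, h1, h2⟩ := least_of k d (l / 2) _ hk (edgeTriangles_of_colorable l)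
    (forcesIn_edge k d (l / 2) 1 hk (Or.inl le_rfl) l (by omega))
  refine ⟨c, hc, h1, h2, fun h => ?_⟩
  refine hc.2 ⟨by omega, forcesIn_edge k d ((l + 1) / 3) ((l + 1) / 3 + 1) hk
    (Or.inr ⟨by omega, Or.inr ⟨by omega, ?_⟩⟩) l (by omega)⟩
  exact (le_refl _).trans (Nat.le_add_left _ _)

theorem forcesIn_clique (k r d : ℕ) (hk : 1 ≤ k) (hr : 3 ≤ r) :
    ForcesIn k d (NoClique r) (2 * k + (r - 3) * k / (r - 2)) := by
  obtain ⟨w, rfl⟩ : ∃ w, r = w + 3 := ⟨r - 3, by omega⟩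
  have e1 : w + 3 - 3 = w := by omega
  have e2 : w + 3 - 2 = w + 1 := by omega
  rw [e1, e2]
  refine ⟨0, fun V _ G hC _ _ hG X hX => ?_⟩
  have hws : w * (k - 1) ≤ (w + 1) * (w * k / (w + 1)) := by
    have h1 := Nat.div_add_mod (w * k) (w + 1)
    have h2 := Nat.mod_lt (w * k) (Nat.succ_pos w)
    have h3 : w * (k - 1) + w = w * k := by
      obtain ⟨k', rfl⟩ : ∃ k', k = k' + 1 := ⟨k - 1, by omega⟩
      simp only [Nat.add_sub_cancel]
      ring
    have h4 : (w + 1) * (w * k / (w + 1)) + w * k % (w + 1) = w * k := h1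
    have h5 : w * k % (w + 1) < w + 1 := h2
    omega
  refine cliques k (w * k / (w + 1)) (w + 1) hk (by omega) hws V G hG X hX fun Q hQX hQ => ?_
  classical
  have h0 : {v : V | ∀ x ∈ Q, G.Adj x v} = ∅ := by
    rw [Set.eq_empty_iff_forall_notMem]
    intro v hv
    refine hC (insert v Q) ?_
    have h1 := hQ.insert (a := v) (fun b hb => (hv b hb).symm)
    exact h1
  rw [h0, Set.ncard_empty, Nat.zero_add, Nat.add_sub_cancel]
  exact hws.trans (Nat.mul_le_mul_right _ (by omega))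

/-- graphs of large minimum degree -/
theorem forcesIn_all (k t d : ℕ) (hk : 1 ≤ k)
    (ht : t ≤ 1 ∨ t ^ 2 + 11 * t ≤ 2 * k + 8 ∧ 52 * t ≤ k + 48) (hd : 3 * k ≤ d + t + 1) :
    ForcesIn k d AllGraphs (2 * k) := by
  refine ⟨3 * k, fun V _ G _ hmin hV hG X hX => ?_⟩
  classical
  refine cyclesThrough_of k G X hX ?_
  have hout : ∀ x ∈ X, 2 * k ≤ (DC.outN G X x).card + t := by
    intro x hx
    have h1 := Helper17.DC.nb_card_eq G X x
    have h2 := Helper17.DC.nb_inter_lt G hx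
    have h3 : (Helper17.DC.nb G x).card = {w : V | G.Adj x w}.ncard := by
      rw [← Set.ncard_coe_finset]
      congr 1
      ext v
      simp [Helper17.DC.mem_nb]
    have h4 := hmin x
    omega
  rcases ht with h1 | ⟨h1, h2⟩
  · refine Helper76.DC.profile_main G k (k - 1) hk hV hG X hX (fun j hj hj2 => ?_) ?_
    · rw [filter_eq_empty_iff.mpr ?_, card_empty]
      · exact Nat.zero_le j
      · intro x hx
        have := hout x hx
        omega
    · exact (card_filter_le _ _).trans (by omega)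
  · exact Helper93.DC.sqrt_main2 G k t hk h1 h2 hV hG X hX hout

theorem result :
    (∀ k s : ℕ, 1 ≤ k → k ≤ 2 * s + 3 →
      ∀ (V : Type) [Fintype V] (G : SimpleGraph V), IsKConnected G (2 * k + s) →
      ∀ X : Finset V, X.card = k →
      (∀ S : Finset V, S ⊆ X → k + S.card = 2 * s + 4 →
        ∃ x ∈ S, ∃ y ∈ S, x ≠ y ∧ {v : V | G.Adj x v ∧ G.Adj y v}.ncard + k ≤ 4 * s + 3) →
      CyclesThrough k G X) ∧
    (∀ k s q : ℕ, 1 ≤ k → (q ≤ 1 ∨ 3 * (s + q) ≤ k ∧
        (q * (q + 1) ≤ 2 * k ∨ q ≤ 2 * s + 1 ∧ q * (q + 1) ≤ 2 * k + (s + 1) * (s + 2))) →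
      ∀ (V : Type) [Fintype V] (G : SimpleGraph V), IsKConnected G (2 * k + s) →
      ∀ X : Finset V, X.card = k →
      (∀ x ∈ X, ∀ y ∈ X, G.Adj x y → {v : V | G.Adj x v ∧ G.Adj y v}.ncard ≤ 2 * s + q) →
      CyclesThrough k G X) ∧
    (∀ k s w : ℕ, 1 ≤ k → 1 ≤ w → (w - 1) * (k - 1) ≤ w * s →
      ∀ (V : Type) [Fintype V] (G : SimpleGraph V), IsKConnected G (2 * k + s) →
      ∀ X : Finset V, X.card = k →
      (∀ Q : Finset V, Q ⊆ X → G.IsNClique (w + 1) Q →
        {v : V | ∀ x ∈ Q, G.Adj x v}.ncard + (w - 1) * (k - 1) ≤ (w + 1) * s) →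
      CyclesThrough k G X) ∧
    (∀ k s t : ℕ, 1 ≤ k → t * (2 * k - 1) < (k + s) * (k + s - 1) →
      ∀ (V : Type) [Fintype V] (G : SimpleGraph V), IsKConnected G (2 * k + s) →
      ∀ X : Finset V, X.card = k →
      (∀ x ∈ X, ∀ y ∈ X, x ≠ y → {v : V | G.Adj x v ∧ G.Adj y v}.ncard ≤ t) →
      CyclesThrough k G X) ∧
    (∀ k d n : ℕ, 1 ≤ k →
      ∃ (V : Type) (_ : Fintype V) (G : SimpleGraph V) (X : Finset V), n ≤ Fintype.card V ∧
        G.Colorable 2 ∧ MinDegree d V G ∧ IsKConnected G (2 * k - 1) ∧ X.card = k ∧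
        (∀ x ∈ X, ∀ y ∈ X, ¬ G.Adj x y ∧ (x ≠ y → ∀ v, ¬ (G.Adj x v ∧ G.Adj y v))) ∧
        ¬ CyclesThrough k G X) ∧
    (∀ k t d : ℕ, 1 ≤ k → (t ≤ 1 ∨ t ^ 2 + 11 * t ≤ 2 * k + 8 ∧ 52 * t ≤ k + 48) →
      3 * k ≤ d + t + 1 → IsLeast {c : ℕ | 1 ≤ c ∧ ForcesIn k d AllGraphs c} (2 * k)) ∧
    (∀ k d l : ℕ, 1 ≤ k →
      ∃ c, IsLeast {c : ℕ | 1 ≤ c ∧ ForcesIn k d (EdgeTriangles l) c} c ∧
        2 * k ≤ c ∧ c ≤ 2 * k + l / 2 ∧ (2 * l + 5 ≤ k → c ≤ 2 * k + (l + 1) / 3)) ∧
    (∀ k d l : ℕ, 1 ≤ k → (l ≤ 1 ∨ 3 * l ≤ k ∧ l * (l + 1) ≤ 2 * k) →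
      IsLeast {c : ℕ | 1 ≤ c ∧ ForcesIn k d (EdgeTriangles l) c} (2 * k)) ∧
    (∀ k d r : ℕ, 1 ≤ k → 3 ≤ r →
      ∃ c, IsLeast {c : ℕ | 1 ≤ c ∧ ForcesIn k d (NoClique r) c} c ∧
        2 * k ≤ c ∧ c ≤ 2 * k + (r - 3) * k / (r - 2)) ∧
    (∀ k d : ℕ, 1 ≤ k → IsLeast {c : ℕ | 1 ≤ c ∧ ForcesIn k d (NoClique 3) c} (2 * k)) ∧
    ∀ k d : ℕ, 1 ≤ k → IsLeast {c : ℕ | 1 ≤ c ∧ ForcesIn k d Bipartite c} (2 * k) := by
  have hNC : ∀ r : ℕ, 3 ≤ r → ∀ (V : Type) (G : SimpleGraph V), G.Colorable 2 →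
      NoClique r V G := fun r hr V G h => h.cliqueFree (by omega)
  refine ⟨fun k s hk hks V _ G hG X hX hcom => window k s hk hks V G hG X hX hcom,
    fun k s q hk hq V _ G hG X hX hcom => few k s q hk hq V G hG X hX hcom,
    fun k s w hk hw hws V _ G hG X hX hcl => cliques k s w hk hw hws V G hG X hX hcl,
    fun k s t hk ht V _ G hG X hX hcom => pairs k s t hk ht V G hG X hX hcom,
    fun k d n hk => lower k d n hk,
    fun k t d hk ht hd => least_of_zero k d _ hk (fun _ _ _ => trivial)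
      (forcesIn_all k t d hk ht hd),
    fun k d l hk => least_edge k l d hk,
    fun k d l hk hl => least_of_zero k d _ hk (edgeTriangles_of_colorable l)
      (forcesIn_edge_zero k l d hk hl),
    fun k d r hk hr => least_of k d _ _ hk (hNC r hr) (forcesIn_clique k r d hk hr),
    fun k d hk => least_of_zero k d _ hk (hNC 3 le_rfl)
      (by simpa using forcesIn_clique k 3 d hk le_rfl),
    fun k d hk => least_of_zero k d _ hk (fun V G h => h)
      (forcesIn_mono k d _ _ _ (edgeTriangles_of_colorable 0)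
        (forcesIn_edge_zero k 0 d hk (Or.inl (by omega))))⟩

end Pool.Agent.Results.MP_6bc104_co.CliqueFree
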