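import Pool.Agent.Helper76.DC.Profile
import Pool.Agent.Helper76.DC.FewEdges
import Pool.Agent.Helper64.DC.Lower

set_option autoImplicit false

/-!
# Disjoint cycles through specified vertices: degree profiles of the specified set

In a `2k`-connected graph with at least `3k` vertices a set `X` of `k` vertices has `k` disjoint
cycles, each containing exactly one vertex of `X`, as soon as for every `d` in `1, ..., k`, with
one exception `e` where one fewer is enough, at least `d` vertices of `X` have fewer than `d`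
neighbours in `X`. This is so if `X` induces at most `k - 1` edges, in particular if `X` induces a
forest. In general `(2k + s)`-connectivity is enough if `X` induces at most `(k - 1) (s + 2) / 2`
edges.
-/

namespace Pool.Agent.Results.MP_6bc104_co.DegreeProfile

open Finset

/-- `G` is `c`-connected: more than `c` vertices, and deleting fewer than `c` vertices leaves a
connected graph. -/
def IsKConnected {V : Type} [Fintype V] (G : SimpleGraph V) (c : ℕ) : Prop :=
  c < Fintype.card V ∧ ∀ S : Finset V, S.card < c → (G.induce {v | v ∉ S}).Connected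

/-- There are `k` pairwise vertex-disjoint cycles, each containing exactly one vertex of `X`. -/
def CyclesThrough {V : Type} (k : ℕ) (G : SimpleGraph V) (X : Finset V) : Prop :=
  ∃ (v : Fin k → V) (C : (i : Fin k) → G.Walk (v i) (v i)),
    (∀ i, (C i).IsCycle) ∧
    (∀ i j, i ≠ j → ∀ w, w ∈ (C i).support → w ∉ (C j).support) ∧
    ∀ i, ∃! x, x ∈ X ∧ x ∈ (C i).support

/-- The number of neighbours of `x` outside `X`. -/
noncomputable def outDeg {V : Type} (G : SimpleGraph V) (X : Finset V) (x : V) : ℕ :=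
  {y : V | G.Adj x y ∧ y ∉ X}.ncard

/-- The number of neighbours of `x` inside `X`. -/
noncomputable def inDeg {V : Type} (G : SimpleGraph V) (X : Finset V) (x : V) : ℕ :=
  {y : V | G.Adj x y ∧ y ∈ X}.ncard

/-- `c`-connectivity forces, in all sufficiently large graphs, the `k` disjoint cycles for all
`k`-sets `X` in the class `C`. -/
def ForcesFor (k : ℕ) (C : (V : Type) → SimpleGraph V → Finset V → Prop) (c : ℕ) : Prop :=
  ∃ n₀ : ℕ, ∀ (V : Type) [Fintype V] (G : SimpleGraph V), n₀ ≤ Fintype.card V →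
    IsKConnected G c → ∀ X : Finset V, X.card = k → C V G X → CyclesThrough k G X

/-- The profile class with surplus `s`: for every `d` in `1, ..., k` at least `d` vertices of `X`
have fewer than `d + s` neighbours in `X`; for one exceptional value `e` of `d`, at least `d - 1`
vertices are enough. -/
def Profile (k s : ℕ) (V : Type) (G : SimpleGraph V) (X : Finset V) : Prop :=
  ∃ e : ℕ, ∀ d : ℕ, 1 ≤ d → d ≤ k →
    d ≤ {x : V | x ∈ X ∧ inDeg G X x < d + s}.ncard + (if d = e then 1 else 0)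

/-- `X` induces at most `q` edges. -/
def EdgesLe (q : ℕ) (V : Type) (G : SimpleGraph V) (X : Finset V) : Prop :=
  (G.induce {v | v ∈ X}).edgeSet.ncard ≤ q

/-- `X` induces a forest. -/
def Forest (V : Type) (G : SimpleGraph V) (X : Finset V) : Prop :=
  (G.induce {v | v ∈ X}).IsAcyclic

/-- At least `i` vertices of `X` have no neighbour in `X`, and no vertex of `X` has more than `m`
neighbours in `X`. -/
def IsolMax (i m : ℕ) (V : Type) (G : SimpleGraph V) (X : Finset V) : Prop :=
  i ≤ {x : V | x ∈ X ∧ inDeg G X x = 0}.ncard ∧ ∀ x ∈ X, inDeg G X x ≤ m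

theorem cyclesThrough_of {V : Type} (k : ℕ) (G : SimpleGraph V) (X : Finset V) (hX : X.card = k)
    (h : DC.DisjCycles G X) : CyclesThrough k G X := by
  classical
  obtain ⟨C, h1, h2, h3⟩ := h
  let e : Fin k ≃ X := (finCongr hX.symm).trans X.equivFin.symm
  refine ⟨fun i => (e i : V), fun i => C (e i), fun i => h1 _ (e i).2, ?_, ?_⟩
  · intro i j hij w hw
    refine h3 _ (e i).2 _ (e j).2 ?_ w hw
    intro h
    exact hij (e.injective (Subtype.ext h))
  · intro i
    refine ⟨e i, ⟨(e i).2, SimpleGraph.Walk.start_mem_support _⟩, ?_⟩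
    rintro y ⟨hy1, hy2⟩
    exact h2 _ (e i).2 y hy2 hy1

theorem of_cyclesThrough {V : Type} (k : ℕ) (G : SimpleGraph V) (X : Finset V)
    (hX : X.card = k) (h : CyclesThrough k G X) : DC.DisjCycles G X := by
  classical
  obtain ⟨v, C, h1, h2, h3⟩ := h
  choose x hx hxu using h3
  have hinj : Function.Injective x := by
    intro i j hij
    by_contra hne
    exact h2 i j hne (x i) (hx i).2 (hij ▸ (hx j).2)
  have himg : univ.image x = X := by
    refine eq_of_subset_of_card_le ?_ ?_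
    · intro y hy
      obtain ⟨i, -, rfl⟩ := mem_image.mp hy
      exact (hx i).1
    · rw [card_image_of_injective _ hinj, card_univ, Fintype.card_fin, hX]
  have hex : ∀ y : V, ∃ D : G.Walk y y, y ∈ X → D.IsCycle ∧
      ∃ i, x i = y ∧ ∀ w, w ∈ D.support → w ∈ (C i).support := by
    intro y
    by_cases hy : y ∈ X
    · rw [← himg] at hy
      obtain ⟨i, -, rfl⟩ := mem_image.mp hy
      refine ⟨(C i).rotate _ (hx i).2, fun _ => ⟨(h1 i).rotate (hx i).2, i, rfl, ?_⟩⟩
      intro w hw
      exact (SimpleGraph.Walk.mem_support_rotate_iff _ _ _).mp hw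
    · exact ⟨SimpleGraph.Walk.nil, fun h => absurd h hy⟩
  choose D hD using hex
  refine ⟨D, fun y hy => (hD y hy).1, ?_, ?_⟩
  · intro y hy w hw hwX
    obtain ⟨i, rfl, hi⟩ := (hD y hy).2
    exact hxu i w ⟨hwX, hi w hw⟩
  · intro y hy z hz hyz w hw hw'
    obtain ⟨i, rfl, hi⟩ := (hD y hy).2
    obtain ⟨j, rfl, hj⟩ := (hD z hz).2
    exact h2 i j (fun h => hyz (by rw [h])) w (hi w hw) (hj w hw')

theorem outDeg_eq {V : Type} [Fintype V] [DecidableEq V] (G : SimpleGraph V)
    [DecidableRel G.Adj] (X : Finset V) (x : V) : outDeg G X x = (DC.outN G X x).card := by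
  unfold outDeg
  rw [← Set.ncard_coe_finset]
  congr 1
  ext y
  simp [DC.outN]

theorem ncard_filter {V : Type} (X : Finset V) (p : V → Prop) [DecidablePred p] :
    {x : V | x ∈ X ∧ p x}.ncard = (X.filter p).card := by
  rw [← Set.ncard_coe_finset]
  congr 1
  ext y
  simp

theorem not_forcesFor (k c : ℕ) (C : (V : Type) → SimpleGraph V → Finset V → Prop)
    (hk : 1 ≤ k) (hc : c < 2 * k)
    (hC : ∀ (V : Type) (G : SimpleGraph V) (X : Finset V), X.card = k →
      (∀ x ∈ X, inDeg G X x = 0) → C V G X) : ¬ ForcesFor k C c := by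
  classical
  rintro ⟨n₀, h⟩
  obtain ⟨G, hG, hind, hX⟩ := DC.lower_bound k (n₀ + k) hk (by omega)
  have hcard : Fintype.card (Fin (2 * k - 1) ⊕ Fin (n₀ + k)) = 2 * k - 1 + (n₀ + k) := by simp
  obtain ⟨X₀, -, hX₀⟩ := exists_subset_card_eq (s := (univ : Finset (Fin (n₀ + k))))
    (n := k) (by rw [card_univ, Fintype.card_fin]; omega)
  set X : Finset (Fin (2 * k - 1) ⊕ Fin (n₀ + k)) := X₀.map ⟨Sum.inr, Sum.inr_injective⟩ with hXd
  have hXk : X.card = k := by rw [hXd, card_map, hX₀]
  refine hX X hXk (of_cyclesThrough k G X hXk (h _ G (by omega)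
    (DC.kconn_anti (by omega) hG) X hXk (hC _ _ _ hXk fun x hx => ?_)))
  have h0 : {y | G.Adj x y ∧ y ∈ X} = (∅ : Set (Fin (2 * k - 1) ⊕ Fin (n₀ + k))) := by
    rw [Set.eq_empty_iff_forall_notMem]
    rintro y ⟨hy1, hy2⟩
    obtain ⟨i, -, rfl⟩ := mem_map.mp hx
    obtain ⟨j, -, rfl⟩ := mem_map.mp hy2
    exact hind i j hy1
  unfold inDeg
  rw [h0, Set.ncard_empty]

theorem out_add_in (c : ℕ) (V : Type) [Fintype V] (G : SimpleGraph V)
    (hG : IsKConnected G c) (X : Finset V) (x : V) : c ≤ outDeg G X x + inDeg G X x := by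
  classical
  have h1 : c ≤ (univ.filter fun y => G.Adj x y).card := DC.kconn_degree G hG x
  have h2 : (univ.filter fun y => G.Adj x y).card = outDeg G X x + inDeg G X x := by
    have h3 : ((univ.filter fun y => G.Adj x y) : Set V) =
        {y : V | G.Adj x y ∧ y ∉ X} ∪ {y : V | G.Adj x y ∧ y ∈ X} := by
      ext y
      simp only [coe_filter, mem_univ, true_and, Set.mem_ofPred_eq, Set.mem_union]
      tauto
    rw [← Set.ncard_coe_finset, h3, Set.ncard_union_eq]
    · rfl
    · rw [Set.disjoint_left]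
      rintro y ⟨-, hy⟩ ⟨-, hy'⟩
      exact hy hy'
  omega

theorem inDeg_lt (V : Type) (G : SimpleGraph V) (X : Finset V) (x : V) (hx : x ∈ X) :
    inDeg G X x + 1 ≤ X.card := by
  classical
  have h1 : inDeg G X x ≤ (X.erase x).card := by
    unfold inDeg
    rw [← Set.ncard_coe_finset]
    refine Set.ncard_le_ncard ?_ (Finset.finite_toSet _)
    rintro y ⟨hy1, hy2⟩
    exact mem_coe.mpr (mem_erase.mpr ⟨hy1.ne', hy2⟩)
  have h2 := card_erase_of_mem hx
  have h3 : 0 < X.card := card_pos.mpr ⟨x, hx⟩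
  omega

theorem adj_of_full (V : Type) (G : SimpleGraph V) (X : Finset V) (x : V) (hx : x ∈ X)
    (h : X.card ≤ inDeg G X x + 1) : ∀ z ∈ X, z ≠ x → G.Adj x z := by
  classical
  intro z hz hzx
  have h1 : {y : V | G.Adj x y ∧ y ∈ X} ⊆ ((X.erase x : Finset V) : Set V) := by
    rintro y ⟨hy1, hy2⟩
    exact mem_coe.mpr (mem_erase.mpr ⟨hy1.ne', hy2⟩)
  have h2 : ((X.erase x : Finset V) : Set V).ncard ≤ {y : V | G.Adj x y ∧ y ∈ X}.ncard := by
    rw [Set.ncard_coe_finset, card_erase_of_mem hx]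
    unfold inDeg at h
    omega
  have h3 := Set.eq_of_subset_of_ncard_le h1 h2 (Finset.finite_toSet _)
  have h4 : z ∈ ((X.erase x : Finset V) : Set V) := mem_coe.mpr (mem_erase.mpr ⟨hzx, hz⟩)
  rw [← h3] at h4
  exact h4.1

theorem profile_of_edges (k q s : ℕ) (hk : 1 ≤ k) (hq : 2 * q ≤ (k - 1) * (s + 2)) (V : Type)
    (G : SimpleGraph V) (X : Finset V) (hX : X.card = k) (h : EdgesLe q V G X) :
    Profile k s V G X := by
  classical
  obtain ⟨e, he⟩ := Pool.Agent.Helper76.DC.profile_of_sum X k s hk hX (inDeg G X)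
    (fun x hx => hX ▸ inDeg_lt V G X x hx) (by
      unfold inDeg
      rw [Pool.Agent.Helper76.DC.sum_inner]
      exact (Nat.mul_le_mul_left 2 h).trans hq) (by
      intro z hz
      have h1 : (((X.erase z).filter fun x => k ≤ inDeg G X x + 1 : Finset V) : Set V) ⊆
          {w : V | G.Adj z w ∧ w ∈ X} := by
        intro x hx
        obtain ⟨hx1, hx2⟩ := mem_filter.mp (mem_coe.mp hx)
        obtain ⟨hx3, hx4⟩ := mem_erase.mp hx1
        exact ⟨(adj_of_full V G X x hx4 (by omega) z hz hx3.symm).symm, hx4⟩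
      have h2 := Set.ncard_le_ncard h1 (X.finite_toSet.subset fun w hw => mem_coe.mpr hw.2)
      rwa [Set.ncard_coe_finset] at h2)
  refine ⟨e, fun d hd1 hdk => ?_⟩
  have h1 := he d hd1 hdk
  rwa [← ncard_filter] at h1

theorem edges_of_forest (k : ℕ) (hk : 1 ≤ k) (V : Type) (G : SimpleGraph V) (X : Finset V)
    (hX : X.card = k) (h : Forest V G X) : EdgesLe (k - 1) V G X := by
  classical
  obtain ⟨x, hx⟩ := card_pos.mp (show 0 < X.card by omega)
  have : Fintype {v | v ∈ X} := inferInstanceAs (Fintype {v // v ∈ X})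
  have : Nonempty {v | v ∈ X} := ⟨⟨x, hx⟩⟩
  have h1 := Pool.Agent.Helper76.DC.ncard_edge_of_acyclic _ h
  have h2 : Nat.card {v | v ∈ X} = k := by
    rw [← hX]
    exact Set.ncard_coe_finset X
  unfold EdgesLe
  omega

theorem profile_of_isolMax (k i m : ℕ) (V : Type) (G : SimpleGraph V) (X : Finset V)
    (hX : X.card = k) (h : IsolMax i m V G X) : Profile k (m - i - 1) V G X := by
  classical
  obtain ⟨h1, h2⟩ := h
  refine ⟨i + 1, fun d hd1 hdk => ?_⟩
  rcases Nat.lt_or_ge (i + 1) d with h3 | h3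
  · have h4 : {x : V | x ∈ X ∧ inDeg G X x < d + (m - i - 1)} = (X : Set V) := by
      ext x
      simp only [Set.mem_ofPred_eq, mem_coe]
      refine ⟨fun h => h.1, fun h => ⟨h, ?_⟩⟩
      have := h2 x h
      omega
    rw [h4, Set.ncard_coe_finset, hX]
    omega
  · have h4 : {x : V | x ∈ X ∧ inDeg G X x = 0}.ncard ≤
        {x : V | x ∈ X ∧ inDeg G X x < d + (m - i - 1)}.ncard := by
      refine Set.ncard_le_ncard ?_ (X.finite_toSet.subset fun w hw => mem_coe.mpr hw.1)
      rintro x ⟨hx1, hx2⟩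
      exact ⟨hx1, by omega⟩
    by_cases h5 : d = i + 1
    · rw [if_pos h5]
      omega
    · rw [if_neg h5]
      omega

/-- the profile theorem -/
theorem profile (k j₀ : ℕ) (hk : 1 ≤ k) (V : Type) [Fintype V] (G : SimpleGraph V)
    (hV : 3 * k ≤ Fintype.card V) (hG : IsKConnected G (2 * k)) (X : Finset V) (hX : X.card = k)
    (hprof : ∀ j, j < k → j ≠ j₀ → {x : V | x ∈ X ∧ outDeg G X x ≤ k + j}.ncard ≤ j)
    (hexc : {x : V | x ∈ X ∧ outDeg G X x ≤ k + j₀}.ncard ≤ j₀ + 1) :
    CyclesThrough k G X := by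
  classical
  refine cyclesThrough_of k G X hX
    (Pool.Agent.Helper76.DC.profile_main G k j₀ hk hV hG X hX (fun j hj hj2 => ?_) ?_)
  · have h := hprof j hj hj2
    rw [ncard_filter] at h
    simpa only [outDeg_eq] using h
  · rw [ncard_filter] at hexc
    simpa only [outDeg_eq] using hexc

theorem filter_not_card {V : Type} (X : Finset V) (p q : V → Prop) (k i : ℕ) (hX : X.card = k)
    (hi : i ≤ {x : V | x ∈ X ∧ p x}.ncard) (hpq : ∀ x ∈ X, p x → ¬ q x) :
    {x : V | x ∈ X ∧ q x}.ncard + i ≤ k := by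
  classical
  rw [ncard_filter] at hi ⊢
  have h1 : Disjoint (X.filter q) (X.filter p) := by
    rw [disjoint_left]
    intro x hx hx'
    exact hpq x (mem_filter.mp hx).1 (mem_filter.mp hx').2 (mem_filter.mp hx).2
  have h2 : X.filter q ∪ X.filter p ⊆ X := union_subset (filter_subset _ _) (filter_subset _ _)
  have h3 := card_le_card h2
  rw [card_union_of_disjoint h1] at h3
  omega

theorem forces_profile (k s : ℕ) (hk : 1 ≤ k) : ForcesFor k (Profile k s) (2 * k + s) := by
  refine ⟨3 * k, fun V _ G hV hG X hX hp => ?_⟩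
  obtain ⟨e, he⟩ := hp
  have hG2 : IsKConnected G (2 * k) :=
    ⟨by have := hG.1; omega, fun S hS => hG.2 S (by omega)⟩
  have key : ∀ j, j < k → {x : V | x ∈ X ∧ outDeg G X x ≤ k + j}.ncard ≤
      j + (if k - j = e then 1 else 0) := by
    intro j hj
    have h0 := he (k - j) (by omega) (by omega)
    have h1 := filter_not_card X (fun x => inDeg G X x < k - j + s)
      (fun x => outDeg G X x ≤ k + j) k _ hX le_rfl (by
        intro x _ h2 h3
        have h4 := out_add_in _ V G hG X x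
        omega)
    split_ifs at h0 ⊢ <;> omega
  refine profile k (k - e) hk V G hV hG2 X hX (fun j hj hj2 => ?_) ?_
  · have h1 := key j hj
    rw [if_neg (by omega)] at h1
    exact h1
  · rcases Nat.lt_or_ge (k - e) k with h1 | h1
    · have h2 := key (k - e) h1
      split_ifs at h2 <;> omega
    · have h2 := filter_not_card X (fun _ => False) (fun x => outDeg G X x ≤ k + (k - e)) k 0 hX
        (Nat.zero_le _) (fun _ _ h => h.elim)
      omega

/-- A class between the independent sets and a profile class. -/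
theorem least_of (k s : ℕ) (hk : 1 ≤ k) (C : (V : Type) → SimpleGraph V → Finset V → Prop)
    (hsub : ∀ (V : Type) (G : SimpleGraph V) (X : Finset V), X.card = k → C V G X →
      Profile k s V G X)
    (hC : ∀ (V : Type) (G : SimpleGraph V) (X : Finset V), X.card = k →
      (∀ x ∈ X, inDeg G X x = 0) → C V G X) :
    ∃ c, IsLeast {c : ℕ | 1 ≤ c ∧ ForcesFor k C c} c ∧ 2 * k ≤ c ∧ c ≤ 2 * k + s := by
  have hF : ForcesFor k C (2 * k + s) := by
    obtain ⟨n₀, h⟩ := forces_profile k s hk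
    exact ⟨n₀, fun V _ G hV hG X hX hc => h V G hV hG X hX (hsub V G X hX hc)⟩
  have hne : {c : ℕ | 1 ≤ c ∧ ForcesFor k C c}.Nonempty := ⟨2 * k + s, by omega, hF⟩
  refine ⟨sInf {c : ℕ | 1 ≤ c ∧ ForcesFor k C c},
    ⟨Nat.sInf_mem hne, fun c hc => Nat.sInf_le hc⟩, ?_, Nat.sInf_le ⟨by omega, hF⟩⟩
  by_contra hcon
  push Not at hcon
  exact not_forcesFor k _ C hk hcon hC (Nat.sInf_mem hne).2

theorem least_of_zero (k : ℕ) (hk : 1 ≤ k) (C : (V : Type) → SimpleGraph V → Finset V → Prop)
    (hsub : ∀ (V : Type) (G : SimpleGraph V) (X : Finset V), X.card = k → C V G X →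
      Profile k 0 V G X)
    (hC : ∀ (V : Type) (G : SimpleGraph V) (X : Finset V), X.card = k →
      (∀ x ∈ X, inDeg G X x = 0) → C V G X) :
    IsLeast {c : ℕ | 1 ≤ c ∧ ForcesFor k C c} (2 * k) := by
  obtain ⟨c, hc, h1, h2⟩ := least_of k 0 hk C hsub hC
  have h3 : c = 2 * k := by omega
  rwa [h3] at hc

theorem indep_set {V : Type} (G : SimpleGraph V) (X : Finset V) (d : ℕ) (hd : 0 < d)
    (h0 : ∀ x ∈ X, inDeg G X x = 0) :
    {x : V | x ∈ X ∧ inDeg G X x < d}.ncard = X.card := by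
  have h1 : {x : V | x ∈ X ∧ inDeg G X x < d} = (X : Set V) := by
    ext x
    simp only [Set.mem_ofPred_eq, mem_coe]
    exact ⟨fun h => h.1, fun h => ⟨h, by rw [h0 x h]; exact hd⟩⟩
  rw [h1, Set.ncard_coe_finset]

theorem indep_profile (k s : ℕ) (V : Type) (G : SimpleGraph V) (X : Finset V) (hX : X.card = k)
    (h0 : ∀ x ∈ X, inDeg G X x = 0) : Profile k s V G X :=
  ⟨0, fun d hd1 hdk => by
    rw [indep_set G X (d + s) (by omega) h0, hX]
    omega⟩

theorem indep_bot (V : Type) (G : SimpleGraph V) (X : Finset V)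
    (h0 : ∀ x ∈ X, inDeg G X x = 0) : G.induce {v | v ∈ X} = ⊥ := by
  classical
  ext a b
  simp only [SimpleGraph.comap_adj, Function.Embedding.subtype_apply, SimpleGraph.bot_adj,
    iff_false]
  intro hab
  have h1 := h0 a.1 a.2
  have h2 : 0 < inDeg G X a.1 := by
    unfold inDeg
    rw [Set.ncard_pos (X.finite_toSet.subset fun w hw => mem_coe.mpr hw.2)]
    exact ⟨b.1, hab, b.2⟩
  omega

theorem result :
    (∀ k j₀ : ℕ, 1 ≤ k → ∀ (V : Type) [Fintype V] (G : SimpleGraph V),
      3 * k ≤ Fintype.card V → IsKConnected G (2 * k) → ∀ X : Finset V, X.card = k →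
      (∀ j, j < k → j ≠ j₀ → {x : V | x ∈ X ∧ outDeg G X x ≤ k + j}.ncard ≤ j) →
      {x : V | x ∈ X ∧ outDeg G X x ≤ k + j₀}.ncard ≤ j₀ + 1 → CyclesThrough k G X) ∧
    (∀ k s : ℕ, 1 ≤ k → ∃ c, IsLeast {c : ℕ | 1 ≤ c ∧ ForcesFor k (Profile k s) c} c ∧
      2 * k ≤ c ∧ c ≤ 2 * k + s) ∧
    (∀ k : ℕ, 1 ≤ k → IsLeast {c : ℕ | 1 ≤ c ∧ ForcesFor k (Profile k 0) c} (2 * k)) ∧
    (∀ k q s : ℕ, 1 ≤ k → 2 * q ≤ (k - 1) * (s + 2) →
      ∃ c, IsLeast {c : ℕ | 1 ≤ c ∧ ForcesFor k (EdgesLe q) c} c ∧ 2 * k ≤ c ∧ c ≤ 2 * k + s) ∧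
    (∀ k : ℕ, 1 ≤ k → IsLeast {c : ℕ | 1 ≤ c ∧ ForcesFor k (EdgesLe (k - 1)) c} (2 * k)) ∧
    (∀ k : ℕ, 1 ≤ k → IsLeast {c : ℕ | 1 ≤ c ∧ ForcesFor k Forest c} (2 * k)) ∧
    (∀ k i m : ℕ, 1 ≤ k → i ≤ k → m ≤ i + 1 →
      IsLeast {c : ℕ | 1 ≤ c ∧ ForcesFor k (IsolMax i m) c} (2 * k)) ∧
    ∀ k i m : ℕ, 1 ≤ k → i ≤ k →
      ∃ c, IsLeast {c : ℕ | 1 ≤ c ∧ ForcesFor k (IsolMax i m) c} c ∧
        2 * k ≤ c ∧ c ≤ 2 * k + (m - i - 1) := by
  have hindI : ∀ k i m : ℕ, i ≤ k → ∀ (V : Type) (G : SimpleGraph V) (X : Finset V),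
      X.card = k → (∀ x ∈ X, inDeg G X x = 0) → IsolMax i m V G X := by
    intro k i m hik V G X hX h0
    refine ⟨?_, fun x hx => ?_⟩
    · have h1 := indep_set G X 1 one_pos h0
      simp only [Nat.lt_one_iff] at h1
      rw [h1, hX]
      exact hik
    · rw [h0 x hx]
      exact Nat.zero_le m
  have hindE : ∀ (q : ℕ) (V : Type) (G : SimpleGraph V) (X : Finset V),
      (∀ x ∈ X, inDeg G X x = 0) → EdgesLe q V G X := by
    intro q V G X h0
    unfold EdgesLe
    rw [indep_bot V G X h0]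
    simp
  refine ⟨fun k j₀ hk V _ G hV hG X hX h1 h2 => profile k j₀ hk V G hV hG X hX h1 h2,
    fun k s hk => least_of k s hk _ (fun V G X _ h => h)
      (fun V G X hX h0 => indep_profile k s V G X hX h0),
    fun k hk => least_of_zero k hk _ (fun V G X _ h => h)
      (fun V G X hX h0 => indep_profile k 0 V G X hX h0),
    fun k q s hk hq => least_of k s hk _
      (fun V G X hX h => profile_of_edges k q s hk hq V G X hX h) (fun V G X _ h0 => hindE q V G X h0),
    fun k hk => least_of_zero k hk _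
      (fun V G X hX h => profile_of_edges k (k - 1) 0 hk (by omega) V G X hX h)
      (fun V G X _ h0 => hindE _ V G X h0),
    fun k hk => least_of_zero k hk _
      (fun V G X hX h => profile_of_edges k (k - 1) 0 hk (by omega) V G X hX
        (edges_of_forest k hk V G X hX h))
      (fun V G X _ h0 => ?_),
    fun k i m hk hik hmi => least_of_zero k hk _
      (fun V G X hX h => by
        have h1 := profile_of_isolMax k i m V G X hX h
        have h2 : m - i - 1 = 0 := by omega
        rwa [h2] at h1)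
      (fun V G X hX h0 => hindI k i m hik V G X hX h0),
    fun k i m hk hik => least_of k (m - i - 1) hk _
      (fun V G X hX h => profile_of_isolMax k i m V G X hX h)
      (fun V G X hX h0 => hindI k i m hik V G X hX h0)⟩
  unfold Forest
  rw [indep_bot V G X h0]
  exact SimpleGraph.isAcyclic_bot

end Pool.Agent.Results.MP_6bc104_co.DegreeProfile
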