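import Pool.Agent.Helper76.DC.Main
import Pool.Agent.Helper64.DC.Lower
import Pool.Agent.Helper93.DC.Common
import Pool.Agent.Helper93.DC.Root2

set_option autoImplicit false

/-!
# Disjoint cycles through specified vertices: the square root theorem

If `t ^ 2 + 11 t ≤ 2k + 8` and `52 t ≤ k + 48`, every `2k`-connected graph with at least `3k`
vertices has, for every set `X` of `k` vertices each having at least `2k - t` neighbours outside `X`,
`k` disjoint cycles each containing exactly one vertex of `X`.  For arbitrary `X`, connectivity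
`3k - 1 - t` suffices under these inequalities, and also as soon as `2 t ^ 2 ≤ k`.
-/

namespace Pool.Agent.Results.MP_6bc104_co.SquareRoot

open Finset

/-- `G` is `c`-connected: more than `c` vertices, and deleting fewer than `c` vertices leaves a
connected graph. -/
def IsKConnected {V : Type} [Fintype V] (G : SimpleGraph V) (c : ℕ) : Prop :=
  c < Fintype.card V ∧ ∀ S : Finset V, S.card < c → (G.induce {v | v ∉ S}).Connected

/-- There are `k` pairwise vertex-disjoint cycles, each containing exactly one vertex of `X`. -/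
def CyclesThrough {V : Type} (k : ℕ) (G : SimpleGraph V) (X : Finset V) : Prop :=
  ∃ (v : Fin k → V) (C : (i : Fin k) → G.Walk (v i) (v i)),
    (∀ i, (C i).IsCycle) ∧
    (∀ i j, i ≠ j → ∀ w, w ∈ (C i).support → w ∉ (C j).support) ∧
    ∀ i, ∃! x, x ∈ X ∧ x ∈ (C i).support

/-- The number of neighbours of `x` outside `X`. -/
noncomputable def outDeg {V : Type} (G : SimpleGraph V) (X : Finset V) (x : V) : ℕ :=
  {y : V | G.Adj x y ∧ y ∉ X}.ncard

/-- The number of neighbours of `x` inside `X`. -/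
noncomputable def inDeg {V : Type} (G : SimpleGraph V) (X : Finset V) (x : V) : ℕ :=
  {y : V | G.Adj x y ∧ y ∈ X}.ncard

/-- `c`-connectivity forces, in all sufficiently large graphs, the `k` disjoint cycles for all
`k`-sets `X` inducing a subgraph of maximum degree at most `d`. -/
def ForcesDeg (k d c : ℕ) : Prop :=
  ∃ n₀ : ℕ, ∀ (V : Type) [Fintype V] (G : SimpleGraph V), n₀ ≤ Fintype.card V →
    IsKConnected G c → ∀ X : Finset V, X.card = k → (∀ x ∈ X, inDeg G X x ≤ d) →
      CyclesThrough k G X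

theorem cyclesThrough_of {V : Type} (k : ℕ) (G : SimpleGraph V) (X : Finset V) (hX : X.card = k)
    (h : DC.DisjCycles G X) : CyclesThrough k G X := by
  classical
  obtain ⟨C, h1, h2, h3⟩ := h
  let e : Fin k ≃ X := (finCongr hX.symm).trans X.equivFin.symm
  refine ⟨fun i => (e i : V), fun i => C (e i), fun i => h1 _ (e i).2, ?_, ?_⟩
  · intro i j hij w hw
    refine h3 _ (e i).2 _ (e j).2 ?_ w hw
    intro h
    exact hij (e.injective (Subtype.ext h))
  · intro i
    refine ⟨e i, ⟨(e i).2, SimpleGraph.Walk.start_mem_support _⟩, ?_⟩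
    rintro y ⟨hy1, hy2⟩
    exact h2 _ (e i).2 y hy2 hy1

theorem of_cyclesThrough {V : Type} (k : ℕ) (G : SimpleGraph V) (X : Finset V)
    (hX : X.card = k) (h : CyclesThrough k G X) : DC.DisjCycles G X := by
  classical
  obtain ⟨v, C, h1, h2, h3⟩ := h
  choose x hx hxu using h3
  have hinj : Function.Injective x := by
    intro i j hij
    by_contra hne
    exact h2 i j hne (x i) (hx i).2 (hij ▸ (hx j).2)
  have himg : univ.image x = X := by
    refine eq_of_subset_of_card_le ?_ ?_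
    · intro y hy
      obtain ⟨i, -, rfl⟩ := mem_image.mp hy
      exact (hx i).1
    · rw [card_image_of_injective _ hinj, card_univ, Fintype.card_fin, hX]
  have hex : ∀ y : V, ∃ D : G.Walk y y, y ∈ X → D.IsCycle ∧
      ∃ i, x i = y ∧ ∀ w, w ∈ D.support → w ∈ (C i).support := by
    intro y
    by_cases hy : y ∈ X
    · rw [← himg] at hy
      obtain ⟨i, -, rfl⟩ := mem_image.mp hy
      refine ⟨(C i).rotate _ (hx i).2, fun _ => ⟨(h1 i).rotate (hx i).2, i, rfl, ?_⟩⟩
      intro w hw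
      exact (SimpleGraph.Walk.mem_support_rotate_iff _ _ _).mp hw
    · exact ⟨SimpleGraph.Walk.nil, fun h => absurd h hy⟩
  choose D hD using hex
  refine ⟨D, fun y hy => (hD y hy).1, ?_, ?_⟩
  · intro y hy w hw hwX
    obtain ⟨i, rfl, hi⟩ := (hD y hy).2
    exact hxu i w ⟨hwX, hi w hw⟩
  · intro y hy z hz hyz w hw hw'
    obtain ⟨i, rfl, hi⟩ := (hD y hy).2
    obtain ⟨j, rfl, hj⟩ := (hD z hz).2
    exact h2 i j (fun h => hyz (by rw [h])) w (hi w hw) (hj w hw')

theorem outDeg_eq {V : Type} [Fintype V] [DecidableEq V] (G : SimpleGraph V)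
    [DecidableRel G.Adj] (X : Finset V) (x : V) : outDeg G X x = (DC.outN G X x).card := by
  unfold outDeg
  rw [← Set.ncard_coe_finset]
  congr 1
  ext y
  simp [DC.outN]

theorem not_forcesDeg (k d c : ℕ) (hk : 1 ≤ k) (hc : c < 2 * k) : ¬ ForcesDeg k d c := by
  classical
  rintro ⟨n₀, h⟩
  obtain ⟨G, hG, hind, hX⟩ := DC.lower_bound k (n₀ + k) hk (by omega)
  have hcard : Fintype.card (Fin (2 * k - 1) ⊕ Fin (n₀ + k)) = 2 * k - 1 + (n₀ + k) := by simp
  obtain ⟨X₀, -, hX₀⟩ := exists_subset_card_eq (s := (univ : Finset (Fin (n₀ + k))))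
    (n := k) (by rw [card_univ, Fintype.card_fin]; omega)
  set X : Finset (Fin (2 * k - 1) ⊕ Fin (n₀ + k)) := X₀.map ⟨Sum.inr, Sum.inr_injective⟩ with hXd
  have hXk : X.card = k := by rw [hXd, card_map, hX₀]
  refine hX X hXk (of_cyclesThrough k G X hXk (h _ G (by omega)
    (DC.kconn_anti (by omega) hG) X hXk fun x hx => ?_))
  have h0 : {y | G.Adj x y ∧ y ∈ X} = (∅ : Set (Fin (2 * k - 1) ⊕ Fin (n₀ + k))) := by
    rw [Set.eq_empty_iff_forall_notMem]
    rintro y ⟨hy1, hy2⟩
    obtain ⟨i, -, rfl⟩ := mem_map.mp hx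
    obtain ⟨j, -, rfl⟩ := mem_map.mp hy2
    exact hind i j hy1
  unfold inDeg
  rw [h0, Set.ncard_empty]
  exact Nat.zero_le d

/-- `c`-connectivity forces property `S_k` in all sufficiently large graphs. -/
def Forces (k c : ℕ) : Prop :=
  ∃ n₀ : ℕ, ∀ (V : Type) [Fintype V] (G : SimpleGraph V), n₀ ≤ Fintype.card V →
    IsKConnected G c → ∀ X : Finset V, X.card = k → CyclesThrough k G X

theorem main (k t : ℕ) (hk : 1 ≤ k) (htk : t ^ 2 + 11 * t ≤ 2 * k + 8) (hk52 : 52 * t ≤ k + 48)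
    (V : Type) [Fintype V]
    (G : SimpleGraph V) (hV : 3 * k ≤ Fintype.card V) (hG : IsKConnected G (2 * k))
    (X : Finset V) (hX : X.card = k) (hout : ∀ x ∈ X, 2 * k ≤ outDeg G X x + t) :
    CyclesThrough k G X := by
  classical
  refine cyclesThrough_of k G X hX
    (Helper93.DC.sqrt_main2 G k t hk htk hk52 hV hG X hX fun x hx => ?_)
  rw [← outDeg_eq]
  exact hout x hx

theorem out_add_in (c : ℕ) (V : Type) [Fintype V] (G : SimpleGraph V)
    (hG : IsKConnected G c) (X : Finset V) (x : V) : c ≤ outDeg G X x + inDeg G X x := by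
  classical
  have h1 : c ≤ (univ.filter fun y => G.Adj x y).card := DC.kconn_degree G hG x
  have h2 : (univ.filter fun y => G.Adj x y).card = outDeg G X x + inDeg G X x := by
    have h3 : ((univ.filter fun y => G.Adj x y) : Set V) =
        {y : V | G.Adj x y ∧ y ∉ X} ∪ {y : V | G.Adj x y ∧ y ∈ X} := by
      ext y
      simp only [coe_filter, mem_univ, true_and, Set.mem_ofPred_eq, Set.mem_union]
      tauto
    rw [← Set.ncard_coe_finset, h3, Set.ncard_union_eq]
    · rfl
    · rw [Set.disjoint_left]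
      rintro y ⟨-, hy⟩ ⟨-, hy'⟩
      exact hy hy'
  omega

theorem inDeg_lt (V : Type) [Fintype V] (G : SimpleGraph V) (X : Finset V) (x : V) (hx : x ∈ X) :
    inDeg G X x + 1 ≤ X.card := by
  classical
  have h1 : inDeg G X x ≤ (X.erase x).card := by
    unfold inDeg
    rw [← Set.ncard_coe_finset]
    refine Set.ncard_le_ncard ?_ (Set.toFinite _)
    rintro y ⟨hy1, hy2⟩
    exact mem_coe.mpr (mem_erase.mpr ⟨hy1.ne', hy2⟩)
  have h2 := card_erase_of_mem hx
  have h3 : 0 < X.card := card_pos.mpr ⟨x, hx⟩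
  omega

theorem commonNbrs (k s : ℕ) (hk : 1 ≤ k) (V : Type) [Fintype V] (G : SimpleGraph V)
    (hV : 3 * k ≤ Fintype.card V) (hG : IsKConnected G (2 * k + s)) (X : Finset V)
    (hX : X.card = k) (T : Finset V) (hTX : T ⊆ X) (hT : k ≤ T.card + s)
    (hcom : k ≤ {v : V | v ∉ X ∧ ∀ x ∈ T, G.Adj x v}.ncard) : CyclesThrough k G X := by
  classical
  refine cyclesThrough_of k G X hX (Helper93.DC.common_nbrs G k s hk hG hV X hX T hTX hT ?_)
  refine hcom.trans (le_of_eq ?_)
  rw [← Set.ncard_coe_finset]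
  congr 1
  ext v
  simp only [mem_coe, Helper93.DC.mem_comN, mem_compl]
  rfl

theorem result :
    (∀ k t : ℕ, 1 ≤ k → t ^ 2 + 11 * t ≤ 2 * k + 8 → 52 * t ≤ k + 48 →
      ∀ (V : Type) [Fintype V] (G : SimpleGraph V),
      3 * k ≤ Fintype.card V → IsKConnected G (2 * k) → ∀ X : Finset V, X.card = k →
      (∀ x ∈ X, 2 * k ≤ outDeg G X x + t) → CyclesThrough k G X) ∧
    (∀ k d : ℕ, 1 ≤ k → d ^ 2 + 11 * d ≤ 2 * k + 8 → 52 * d ≤ k + 48 →
      IsLeast {c : ℕ | 1 ≤ c ∧ ForcesDeg k d c} (2 * k)) ∧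
    (∀ k s : ℕ, 1 ≤ k → ∀ (V : Type) [Fintype V] (G : SimpleGraph V),
      3 * k ≤ Fintype.card V → IsKConnected G (2 * k + s) → ∀ X : Finset V, X.card = k →
      (∃ T ⊆ X, k ≤ T.card + s ∧ k ≤ {v : V | v ∉ X ∧ ∀ x ∈ T, G.Adj x v}.ncard) →
      CyclesThrough k G X) ∧
    ∀ k t : ℕ, 1 ≤ k → (2 * t ^ 2 ≤ k ∨ (t ^ 2 + 11 * t ≤ 2 * k + 8 ∧ 52 * t ≤ k + 48)) →
      ∃ c, IsLeast {c : ℕ | 1 ≤ c ∧ Forces k c} c ∧ 2 * k ≤ c ∧ c + t + 1 ≤ 3 * k := by
  refine ⟨fun k t hk htk h52 V _ G hV hG X hX hout => main k t hk htk h52 V G hV hG X hX hout,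
    fun k d hk hdk h52 => ⟨⟨by omega, 3 * k, fun V _ G hV hG X hX hd => ?_⟩, ?_⟩,
    fun k s hk V _ G hV hG X hX ⟨T, hTX, hT, hcom⟩ =>
      commonNbrs k s hk V G hV hG X hX T hTX hT hcom,
    fun k t hk htk => ?_⟩
  · refine main k d hk hdk h52 V G hV hG X hX fun x hx => ?_
    have h1 := out_add_in _ V G hG X x
    have h2 := hd x hx
    omega
  · rintro c ⟨-, hc⟩
    by_contra hcon
    push Not at hcon
    exact not_forcesDeg k d c hk hcon hc
  · have ht : t + 1 ≤ k := by
      rcases Nat.eq_zero_or_pos t with h0 | h0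
      · omega
      · rcases htk with h | ⟨-, h⟩
        · nlinarith
        · omega
    have hF : Forces k (3 * k - 1 - t) := by
      refine ⟨3 * k, fun V _ G hV hG X hX => ?_⟩
      classical
      rcases htk with h | ⟨h, h'⟩
      · exact cyclesThrough_of k G X hX (Helper93.DC.half_sqrt G k t hk h hG hV X hX)
      · refine main k t hk h h' V G hV (DC.kconn_anti (by omega) hG) X hX fun x hx => ?_
        have h1 := out_add_in _ V G hG X x
        have h2 := inDeg_lt V G X x hx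
        omega
    have hne : {c : ℕ | 1 ≤ c ∧ Forces k c}.Nonempty := ⟨3 * k - 1 - t, by omega, hF⟩
    have hle : sInf {c : ℕ | 1 ≤ c ∧ Forces k c} ≤ 3 * k - 1 - t :=
      Nat.sInf_le ⟨by omega, hF⟩
    refine ⟨sInf {c : ℕ | 1 ≤ c ∧ Forces k c}, ⟨Nat.sInf_mem hne, fun c hc => Nat.sInf_le hc⟩,
      ?_, by omega⟩
    by_contra hcon
    push Not at hcon
    obtain ⟨-, n₀, hn⟩ := Nat.sInf_mem hne
    exact not_forcesDeg k k _ hk hcon ⟨n₀, fun V _ G hV hG X hX _ => hn V G hV hG X hX⟩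

end Pool.Agent.Results.MP_6bc104_co.SquareRoot
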